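import Pool.Agent.Lib.P17cb1b.Proj

/-!
# Sheets of CR dimension one are Levi-flat and ruled by pieces of projective lines
-/

open scoped LinearAlgebra.Projectivization ContDiff

namespace Pool.Agent.Results.MP_17cb1b_an.LeviFlat

open Pool.Agent.Lib.P17cb1b

/-- **Main result.** Let the open set `D ⊂ ℂP³` cover a compact complex threefold by a group `Γ`
of (restrictions of) projective transformations, and let `Λ = Dᶜ` be locally a finite union of
embedded `C^∞` submanifolds of real dimension four.  Then every embedded `C^∞` submanifold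
`M ⊆ Λ` of real dimension four and CR dimension one is Levi-flat; moreover through every point of
`M` passes a piece of a complex projective line which is contained in `M`, so that the leaves are
open pieces of projective lines. -/
theorem result (D : Set CP3) (hD : IsOpen D) (hne : D.Nonempty) (Γ : Subgroup (Equiv.Perm D))
    (h : CoversByProjective D Γ) (hΛ : IsLocallyUnionOfSheets Dᶜ) (M : Set CP3)
    (hM : IsSmoothEmbedded4 M) (hMΛ : M ⊆ Dᶜ) (hCR : ∀ p ∈ M, HasCRDim M p 1) :
    IsLeviFlat M ∧ ∀ (i : Fin 4) (z : Fin 3 → ℂ), affine i z ∈ M →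
      ∃ q : Fin 3 → ℂ, q ≠ 0 ∧ ∀ᶠ s in nhds (0 : ℂ), affine i (z + s • q) ∈ M := by
  have hG := actsCocompactly_liftGroup hD hne h
  have hgerm : ∀ (i : Fin 4) (z : Fin 3 → ℂ), affine i z ∈ M → ∀ N : Set (Fin 3 → ℂ), IsOpen N →
      z ∈ N → ∃ z' ∈ N, ∃ q : Fin 3 → ℂ, q ≠ 0 ∧
        ∀ᶠ s in nhds (0 : ℂ), affine i (z' + s • q) ∈ M :=
    fun i z hz N hN hzN => exists_germ_near hD hG hΛ hM hMΛ hz hN hzN
  exact ⟨isLeviFlat_of_germs hM hgerm hCR,
    fun i z hz => exists_line_of_germs hM hgerm hCR hz⟩

end Pool.Agent.Results.MP_17cb1b_an.LeviFlat
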