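import Pool.Agent.Lib.P17cb1b.Geometry

/-!
# A covering domain in `ℂP³` whose four-dimensional complement is not a CR submanifold

`Λ = {[z₀ : z₁ : z₂ : z₃] : conj z₀ * z₃ = z₁ * conj z₂}` is the preimage of a round two-sphere
under the twistor fibration `ℂP³ → S⁴`.  Its complement `D` covers a compact complex threefold, `Λ`
is a compact connected real-analytic embedded submanifold of real dimension four, and the CR
dimension of `Λ` is `2` along two disjoint projective lines and `1` everywhere else.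

The covering group is the congruence subgroup of level `3` of the norm-one Lipschitz quaternions
over `ℤ[(1 + √-7)/2]`, acting on `ℂ⁴` through `V̄ ⊕ V`, `V` the standard representation of
`SL(2, ℂ)`; the definitions used in the statement are in `Pool/Agent/Lib/P17cb1b/Defs.lean`.
-/

open scoped LinearAlgebra.Projectivization ContDiff

namespace Pool.Agent.Results.MP_17cb1b_an.TwistorComplement

open Complex Pool.Agent.Lib.P17cb1b

/-- **Main result.** There is a domain `D ⊂ ℂP³` covering a compact complex threefold whose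
complement `Λ = {conj z₀ * z₃ = z₁ * conj z₂}` is a compact connected embedded real-analytic
submanifold of real dimension four which has CR dimension `2` along the two disjoint projective
lines `z₁ = z₃ = 0` and `z₀ = z₂ = 0` and CR dimension `1` at all other points.  In particular
`Λ` (its own only component) is neither a complex hypersurface nor a CR submanifold. -/
theorem result : ∃ (D : Set CP3) (Γ : Subgroup (GL (Fin 4) ℂ)),
    IsOpen D ∧ IsConnected D ∧ CoversCompact D Γ ∧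
    IsCompact Dᶜ ∧ IsConnected Dᶜ ∧ IsEmbedded4 Dᶜ ∧
    (∀ (v : Fin 4 → ℂ) (hv : v ≠ 0), Projectivization.mk ℂ v hv ∈ Dᶜ ↔
      (starRingEnd ℂ) (v 0) * v 3 = v 1 * (starRingEnd ℂ) (v 2)) ∧
    (∀ (v : Fin 4 → ℂ) (hv : v ≠ 0), (v 1 = 0 ∧ v 3 = 0) ∨ (v 0 = 0 ∧ v 2 = 0) →
      Projectivization.mk ℂ v hv ∈ Dᶜ ∧ HasCRDim Dᶜ (Projectivization.mk ℂ v hv) 2) ∧
    (∀ (v : Fin 4 → ℂ) (hv : v ≠ 0), Projectivization.mk ℂ v hv ∈ Dᶜ →
      ¬ ((v 1 = 0 ∧ v 3 = 0) ∨ (v 0 = 0 ∧ v 2 = 0)) →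
      HasCRDim Dᶜ (Projectivization.mk ℂ v hv) 1) ∧
    ¬ ∃ d : ℕ, ∀ p ∈ Dᶜ, HasCRDim Dᶜ p d := by
  have h2 : ∀ (v : Fin 4 → ℂ) (hv : v ≠ 0), (v 1 = 0 ∧ v 3 = 0) ∨ (v 0 = 0 ∧ v 2 = 0) →
      (Projectivization.mk ℂ v hv : CP3) ∈ DDᶜ ∧
        HasCRDim DDᶜ (Projectivization.mk ℂ v hv) 2 := by
    intro v hv hl
    have hmem : (Projectivization.mk ℂ v hv : CP3) ∈ DDᶜ := by
      rw [mem_compl_mk, cF]
      rcases hl with ⟨h1, h3⟩ | ⟨h0, h2⟩
      · rw [h1, h3]; ring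
      · rw [h0, h2]; simp
    exact ⟨hmem, crDim_compl v hv hmem 2 (Or.inl ⟨hl, rfl⟩)⟩
  have h1 : ∀ (v : Fin 4 → ℂ) (hv : v ≠ 0), (Projectivization.mk ℂ v hv : CP3) ∈ DDᶜ →
      ¬ ((v 1 = 0 ∧ v 3 = 0) ∨ (v 0 = 0 ∧ v 2 = 0)) →
      HasCRDim DDᶜ (Projectivization.mk ℂ v hv) 1 := by
    intro v hv hmem hl
    exact crDim_compl v hv hmem 1 (Or.inr ⟨hl, rfl⟩)
  refine ⟨DD, GG, isOpen_DD, isConnected_DD, ⟨?_, ?_, finite_DD, cocompact_DD⟩, isCompact_compl,
    isConnected_compl, isEmbedded4_compl, ?_, h2, h1, ?_⟩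
  · intro g hg x hx
    exact smul_mem_DD hg hx
  · intro g hg hg1 x hx h
    exact hg1 (free_DD hg hx h)
  · intro v hv
    rw [mem_compl_mk, cF, sub_eq_zero]
  · rintro ⟨d, hd⟩
    -- the points `[1:0:0:0]` and `[1:1:0:0]`
    have hp := h2 ((0 : Fin 4).insertNth 1 ![0, 0, 0]) (insertNth_ne_zero 0 _) (Or.inl ⟨rfl, rfl⟩)
    have hqmem : (Projectivization.mk ℂ ((0 : Fin 4).insertNth 1 ![1, 0, 0])
        (insertNth_ne_zero 0 _) : CP3) ∈ DDᶜ := by
      rw [mem_compl_mk, cF]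
      have e2 : ((0 : Fin 4).insertNth 1 ![1, 0, 0] : Fin 4 → ℂ) 2 = 0 := rfl
      have e3 : ((0 : Fin 4).insertNth 1 ![1, 0, 0] : Fin 4 → ℂ) 3 = 0 := rfl
      rw [e2, e3]
      simp
    have hq := h1 ((0 : Fin 4).insertNth 1 ![1, 0, 0]) (insertNth_ne_zero 0 _) hqmem (by
      rintro (⟨h, -⟩ | ⟨h, -⟩)
      · exact one_ne_zero (α := ℂ) h
      · exact one_ne_zero (α := ℂ) h)
    have e1 : d = 2 := HasCRDim.unique (i := 0) (z := ![0, 0, 0]) (hd _ hp.1) hp.2
    have e2 : d = 1 := HasCRDim.unique (i := 0) (z := ![1, 0, 0]) (hd _ hqmem) hq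
    omega

end Pool.Agent.Results.MP_17cb1b_an.TwistorComplement
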